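import Pool.Agent.Y271.RO.Stm

/-!
# RO-ALT: the alternative for a continuous weight
-/

set_option autoImplicit false

namespace Pool.Agent.Y286.RO

open MeasureTheory Set Metric Filter Topology
open Pool.Agent.Y271.RO

/-- polygons from `z` to the outside of the disc, with steps of length at most one -/
structure Adm (a : ℂ) (r : ℝ) (z : ℂ) (p : ℕ → ℂ) (m : ℕ) : Prop where
  start : p 0 = z
  step : ∀ j, j < m → ‖p (j + 1) - p j‖ ≤ 1
  out : r ≤ ‖p m - a‖

/-- the costs of these polygons -/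
def costs (W : ℂ → ℝ) (a : ℂ) (r : ℝ) (z : ℂ) : Set ℝ :=
  {c | ∃ (p : ℕ → ℂ) (m : ℕ), Adm a r z p m ∧ c = cost W p m}

/-- the distance to the outside -/
noncomputable def GG (W : ℂ → ℝ) (a : ℂ) (r : ℝ) (z : ℂ) : ℝ := sInf (costs W a r z)

/-- the integral along a segment -/
noncomputable def seg (W : ℂ → ℝ) (z z' : ℂ) : ℝ :=
  ‖z' - z‖ * ∫ t in (0:ℝ)..1, W (z + t * (z' - z))

theorem seg_nonneg {W : ℂ → ℝ} (hW : ∀ z, 0 ≤ W z) (z z' : ℂ) : 0 ≤ seg W z z' :=
  mul_nonneg (norm_nonneg _) (intervalIntegral.integral_nonneg zero_le_one fun _ _ => hW _)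

theorem cost_eq (W : ℂ → ℝ) (p : ℕ → ℂ) (m : ℕ) :
    cost W p m = ∑ j ∈ Finset.range m, seg W (p j) (p (j + 1)) := rfl

theorem seg_symm (W : ℂ → ℝ) (z z' : ℂ) : seg W z' z = seg W z z' := by
  unfold seg
  rw [norm_sub_rev]
  congr 1
  have h := intervalIntegral.integral_comp_sub_left (a := 0) (b := 1)
    (fun t : ℝ => W (z + t * (z' - z))) 1
  simp only [sub_self, sub_zero] at h
  rw [← h]
  refine intervalIntegral.integral_congr fun t _ => ?_
  show W (z' + t * (z - z')) = W (z + ((1 - t : ℝ) : ℂ) * (z' - z))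
  congr 1
  push_cast
  ring

theorem costs_bdd {W : ℂ → ℝ} (hW : ∀ z, 0 ≤ W z) (a : ℂ) (r : ℝ) (z : ℂ) :
    ∀ c ∈ costs W a r z, 0 ≤ c := by
  rintro c ⟨p, m, -, rfl⟩
  rw [cost_eq]
  exact Finset.sum_nonneg fun j _ => seg_nonneg hW _ _

theorem costs_ne (W : ℂ → ℝ) (a : ℂ) (r : ℝ) (z : ℂ) : (costs W a r z).Nonempty := by
  refine ⟨_, fun j => z + j, ⌈r + ‖z - a‖⌉₊, ⟨by simp, fun j _ => ?_, ?_⟩, rfl⟩
  · push_cast
    rw [show z + ((j : ℂ) + 1) - (z + j) = 1 by ring]
    simp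
  · have h1 : r + ‖z - a‖ ≤ (⌈r + ‖z - a‖⌉₊ : ℝ) := Nat.le_ceil _
    have h2 : (⌈r + ‖z - a‖⌉₊ : ℝ) = ‖(z + (⌈r + ‖z - a‖⌉₊ : ℂ) - a) - (z - a)‖ := by
      rw [show (z + (⌈r + ‖z - a‖⌉₊ : ℂ) - a) - (z - a) = (⌈r + ‖z - a‖⌉₊ : ℂ) by ring]
      simp
    have h3 := norm_sub_le (z + (⌈r + ‖z - a‖⌉₊ : ℂ) - a) (z - a)
    linarith

theorem GG_nonneg {W : ℂ → ℝ} (hW : ∀ z, 0 ≤ W z) (a : ℂ) (r : ℝ) (z : ℂ) : 0 ≤ GG W a r z :=
  Real.sInf_nonneg (costs_bdd hW a r z)

theorem GG_le {W : ℂ → ℝ} (hW : ∀ z, 0 ≤ W z) {a : ℂ} {r : ℝ} {z : ℂ} {p : ℕ → ℂ} {m : ℕ}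
    (h : Adm a r z p m) : GG W a r z ≤ cost W p m :=
  csInf_le ⟨0, fun c hc => costs_bdd hW a r z c hc⟩ ⟨p, m, h, rfl⟩

theorem GG_out {W : ℂ → ℝ} (hW : ∀ z, 0 ≤ W z) {a : ℂ} {r : ℝ} {z : ℂ} (h : r ≤ ‖z - a‖) :
    GG W a r z = 0 := by
  refine le_antisymm ?_ (GG_nonneg hW a r z)
  have h1 : Adm a r z (fun _ => z) 0 := ⟨rfl, fun j hj => absurd hj (Nat.not_lt_zero j), h⟩
  have h2 := GG_le hW h1
  rw [cost_eq, Finset.sum_range_zero] at h2
  exact h2

theorem GG_step {W : ℂ → ℝ} (hW : ∀ z, 0 ≤ W z) (a : ℂ) (r : ℝ) {z z' : ℂ} (h : ‖z - z'‖ ≤ 1) :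
    GG W a r z ≤ seg W z z' + GG W a r z' := by
  have h1 : GG W a r z - seg W z z' ≤ GG W a r z' := by
    refine le_csInf (costs_ne W a r z') ?_
    rintro c ⟨p, m, hp, rfl⟩
    have h2 : Adm a r z (fun j => if j = 0 then z else p (j - 1)) (m + 1) := by
      refine ⟨by simp, fun j hj => ?_, ?_⟩
      · rcases Nat.eq_zero_or_pos j with h3 | h3
        · subst h3
          simp only [zero_add, one_ne_zero, if_false, if_true, Nat.sub_self, hp.start]
          rw [norm_sub_rev]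
          exact h
        · rw [if_neg (by omega), if_neg (by omega)]
          have h4 := hp.step (j - 1) (by omega)
          rw [Nat.sub_add_cancel h3] at h4
          simpa using h4
      · rw [if_neg (by omega)]
        simpa using hp.out
    have h3 := GG_le hW h2
    have h4 : cost W (fun j => if j = 0 then z else p (j - 1)) (m + 1) =
        cost W p m + seg W z z' := by
      rw [cost_eq, cost_eq, Finset.sum_range_succ']
      have e1 : ∀ j ∈ Finset.range m, seg W (if j + 1 = 0 then z else p (j + 1 - 1))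
          (if j + 1 + 1 = 0 then z else p (j + 1 + 1 - 1)) = seg W (p j) (p (j + 1)) := by
        intro j _
        rw [if_neg (Nat.succ_ne_zero _), if_neg (Nat.succ_ne_zero _)]
        rfl
      rw [Finset.sum_congr rfl e1]
      simp [hp.start]
    rw [h4] at h3
    linarith
  linarith

theorem GG_in {W : ℂ → ℝ} (hW : ∀ z, 0 ≤ W z) {a : ℂ} {τ r η : ℝ} (hτ : τ < r)
    (hC : ¬ Cheap W a τ r η) {z : ℂ} (hz : z ∈ ball a τ) : η ≤ GG W a r z := by
  refine le_csInf (costs_ne W a r z) ?_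
  rintro c ⟨p, m, hp, rfl⟩
  classical
  have hex : ∃ k, r ≤ ‖p k - a‖ := ⟨m, hp.out⟩
  set k := Nat.find hex with hk
  have hk1 : r ≤ ‖p k - a‖ := Nat.find_spec hex
  have hkm : k ≤ m := Nat.find_min' hex hp.out
  have hk0 : 0 < k := by
    rcases Nat.eq_zero_or_pos k with h | h
    · exfalso
      rw [h, hp.start] at hk1
      rw [mem_ball_iff_norm] at hz
      linarith
    · exact h
  have hk2 : ‖p (k - 1) - a‖ < r := by
    have := Nat.find_min hex (m := k - 1) (by omega)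
    exact not_le.mp this
  have hk3 : ‖p k - a‖ ≤ r + 1 := by
    have h1 := hp.step (k - 1) (by omega)
    rw [Nat.sub_add_cancel hk0] at h1
    have h2 := norm_add_le (p k - p (k - 1)) (p (k - 1) - a)
    rw [sub_add_sub_cancel] at h2
    linarith
  have h4 : η ≤ cost W p k := by
    by_contra h
    exact hC ⟨p, k, by rw [hp.start]; exact hz, hk1, hk3, not_le.mp h⟩
  refine h4.trans ?_
  rw [cost_eq, cost_eq]
  exact Finset.sum_le_sum_of_subset_of_nonneg (Finset.range_mono hkm)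
    fun j _ _ => seg_nonneg hW _ _

theorem main : S_ALT := by
  intro W a τ r η _ hW _ hτr hη
  by_cases hC : Cheap W a τ r η
  · exact Or.inl hC
  · refine Or.inr ⟨fun z => min 1 (GG W a r z / η), ?_, ?_, ?_, ?_⟩
    · intro z hz
      have h1 := GG_in hW hτr hC hz
      exact min_eq_left ((one_le_div hη).mpr h1)
    · intro z hz
      show min 1 (GG W a r z / η) = 0
      rw [GG_out hW hz, zero_div]
      exact min_eq_right zero_le_one
    · intro z
      exact ⟨le_min zero_le_one (div_nonneg (GG_nonneg hW a r z) hη.le), min_le_left _ _⟩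
    · intro z z' hzz
      have h1 := GG_step hW a r hzz
      have h2 := GG_step hW a r (z := z') (z' := z) (by rwa [norm_sub_rev])
      rw [seg_symm] at h2
      have h3 : |GG W a r z - GG W a r z'| ≤ seg W z z' := by
        rw [abs_le]
        constructor <;> linarith
      have h4 := abs_min_sub_min_le_max 1 (GG W a r z / η) 1 (GG W a r z' / η)
      rw [sub_self, abs_zero, max_eq_right (abs_nonneg _), ← sub_div, abs_div, abs_of_pos hη] at h4
      refine h4.trans ?_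
      rw [div_eq_mul_inv, mul_comm, ← one_div]
      refine mul_le_mul_of_nonneg_left ?_ (by positivity)
      refine h3.trans (le_of_eq ?_)
      unfold seg
      rw [norm_sub_rev]

end Pool.Agent.Y286.RO
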